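import Pool.Agent.H.MP_9acee6_nt.Equiv

/-!
# `p`-adic valuations of coloured `p^a`-ary partition counts: automatic if and only if bounded

For all `p`, `a`, `m`: every truncation `min(V_{p,a,m}(n), B)` is `p`-automatic; in particular
`V_{p,a,m}` is `p`-automatic if and only if it is bounded.
-/

set_option autoImplicit false

namespace Pool.Agent.Results.MP_9acee6_nt.Equivalence

open Pool.MP9acee6

theorem result (p a m : ℕ) (hp : p.Prime) (ha : 1 ≤ a) (hm : 1 ≤ m) :
    (∀ B : ℕ, IsAutomatic p (fun n => min (V p a m n) B)) ∧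
    (IsAutomatic p (V p a m) ↔ IsBdd (V p a m)) :=
  ⟨trunc_auto p a m hp ha hm, equivalence p a m hp ha hm⟩

end Pool.Agent.Results.MP_9acee6_nt.Equivalence
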