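import Pool.Agent.H.MP_9acee6_nt.Fin2

/-!
# `p`-adic valuations of coloured `p^a`-ary partition counts: `m ≡ -1 mod p`

Explicit valuations, hence automaticity, in the non-critical cases with `p ∣ m + 1`.
-/

set_option autoImplicit false

namespace Pool.Agent.Results.MP_9acee6_nt.MinusOneClass

open Pool.MP9acee6

/-- For odd `p` and non-critical `m` with `p ∣ m + 1`, and for `p = 2` and `2^(a-1) ∣ m + 1`:
`V_{p,a,m}` is automatic.  Moreover with `n = p^t n'`, `p ∤ n'`, `t = a i + r`, `r < a`, the value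
`V(n)` is given explicitly. -/
theorem result (p a m : ℕ) (hp : p.Prime) (ha : 2 ≤ a) (hm : 1 ≤ m) (hpm : p ∣ m + 1)
    (hA : p = 2 ∨ a ≤ 3 ∨ ¬ p ^ 3 ∣ Aint p)
    (hc : (p ≠ 2 ∧ ¬ CritOdd p a m) ∨ (p = 2 ∧ 2 ^ (a - 1) ∣ m + 1)) :
    IsAutomatic p (V p a m) ∧
    ∀ n i r : ℕ, 1 ≤ n → r < a → padicValNat p n = a * i + r →
      V p a m n = if p = 2 then
          (if i % 2 = 0 then ((a - r : ℕ) : ℤ)
            else if r + 1 = a then 1 + (padicValNat 2 (m + 1) : ℤ) else 1)
        else if i = 0 then ((a - r : ℕ) : ℤ)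
        else ((min (a - r) (padicValNat p ((m + 1) * Aint p) + 1 + r) : ℕ) : ℤ) := by
  have hi : ∀ i r : ℕ, r < a → (a * i + r) / a = i := by
    intro i r hr
    rw [Nat.mul_add_div (by omega), Nat.div_eq_of_lt hr, add_zero]
  have hr : ∀ i r : ℕ, r < a → (a * i + r) % a = r := by
    intro i r hr
    rw [Nat.mul_add_mod, Nat.mod_eq_of_lt hr]
  rcases hc with ⟨hp2, hc⟩ | ⟨hp2, hc⟩
  · refine ⟨odd_auto hp hp2 ha hm (hA.resolve_left hp2) hc, ?_⟩
    intro n i r hn hra hv
    have : Fact p.Prime := ⟨hp⟩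
    rw [odd_values hp2 ha hm (hA.resolve_left hp2) hc n hn, hv, hi i r hra, hr i r hra, if_neg hp2]
    have hpm' : ¬ p ∣ m := by
      intro h
      have h1 : p ∣ 1 := (Nat.dvd_add_right h).1 hpm
      exact hp.one_lt.not_ge (Nat.le_of_dvd one_pos h1)
    have hvm : padicValNat p m = 0 := padicValNat.eq_zero_of_not_dvd hpm'
    have hA0 : Aint p ≠ 0 := by
      unfold Aint
      apply ne_of_gt
      apply Finset.sum_pos
      · intro j hj
        rw [Finset.mem_Ioo] at hj
        apply Nat.div_pos _ hj.1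
        exact (Nat.self_le_factorial j).trans (Nat.factorial_le (by omega))
      · refine ⟨1, ?_⟩
        rw [Finset.mem_Ioo]
        have := hp.two_le
        omega
    have hx : padicValNat p (m * (m + 1) * Aint p) = padicValNat p ((m + 1) * Aint p) := by
      rw [mul_assoc, padicValNat.mul (by omega) (Nat.mul_ne_zero (by omega) hA0), hvm, zero_add]
    unfold gOdd
    rw [hvm, hx, zero_add]
    split_ifs <;> rfl
  · subst hp2
    refine ⟨minus_auto ha hm hc, ?_⟩
    intro n i r hn hra hv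
    rw [minus_values ha hm hc n hn, hv, hi i r hra, hr i r hra, if_pos rfl]
    unfold gMinus
    split_ifs <;> push_cast <;> rfl

end Pool.Agent.Results.MP_9acee6_nt.MinusOneClass
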