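import Pool.Agent.H.MP_9acee6_nt.Fin2

/-!
# `p`-adic valuations of coloured `p^a`-ary partition counts: `m ≢ -1 mod p`

Complete determination of the `m` with `p ∤ m + 1` for which `V_{p,a,m}` is automatic, and of
those for which it is bounded (all primes, except that for odd `p` and `a ≥ 4` we assume that
`p^3` does not divide `(p-1)! (1 + 1/2 + ... + 1/(p-1))`).
-/

set_option autoImplicit false

namespace Pool.Agent.Results.MP_9acee6_nt.NotMinusOne

open Pool.MP9acee6

theorem result (p a m : ℕ) (hp : p.Prime) (ha : 2 ≤ a) (hm : 1 ≤ m) (hpm : ¬ p ∣ m + 1)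
    (hA : p = 2 ∨ a ≤ 3 ∨ ¬ p ^ 3 ∣ Aint p) :
    (IsAutomatic p (V p a m) ↔ ¬ Crit p a m) ∧ (IsBdd (V p a m) ↔ ¬ Crit p a m) :=
  criterion p a m hp ha hm hpm hA

end Pool.Agent.Results.MP_9acee6_nt.NotMinusOne
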