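import Pool.Agent.H.MP_9acee6_nt.SqB

/-!
# `p`-adic valuations of coloured `p^2`-ary partition counts: complete answer for `a = 2`

For odd `p` an explicit formula; for `p = 2` (that is, `k = 4`) the conjectured criterion
`m ≡ 6 mod 8`, also in the form with `⌊ν_2 / 2⌋`.
-/

set_option autoImplicit false

namespace Pool.Agent.Results.MP_9acee6_nt.SquareBase

open Pool.MP9acee6

theorem result (m : ℕ) (hm : 1 ≤ m) :
    (∀ p : ℕ, p.Prime → p ≠ 2 →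
      (∀ n, 1 ≤ n → V p 2 m n = (padicValNat p m : ℤ) + 2 - (padicValNat p n % 2 : ℕ)) ∧
      IsAutomatic p (V p 2 m) ∧ IsBdd (V p 2 m)) ∧
    (IsAutomatic 2 (V 2 2 m) ↔ m % 8 ≠ 6) ∧ (IsBdd (V 2 2 m) ↔ m % 8 ≠ 6) ∧
    (IsAutomatic 4 (fun n => V 2 2 m n / 2) ↔ m % 8 ≠ 6) ∧
    (IsBdd (fun n => V 2 2 m n / 2) ↔ m % 8 ≠ 6) := by
  obtain ⟨h1, h2⟩ := two_two_criterion m hm
  have hb : IsBdd (V 2 2 m) → m % 8 ≠ 6 := fun h h6 => h2 h6 h
  refine ⟨?_, ?_, ?_, ?_, ?_⟩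
  · intro p hp hp2
    have ha : IsAutomatic p (V p 2 m) :=
      odd_auto hp hp2 le_rfl hm (Or.inl (by norm_num)) (not_critOdd_two hp hp2 hm)
    exact ⟨odd_two_values hp hp2 hm, ha, IsAutomatic.isBdd hp.two_le ha⟩
  · exact ⟨fun h => hb (IsAutomatic.isBdd le_rfl h), h1⟩
  · exact ⟨hb, fun h => IsAutomatic.isBdd le_rfl (h1 h)⟩
  · exact ⟨fun h => hb (bdd_half.1 (IsAutomatic.isBdd (by norm_num) h)), fun h => auto_four (h1 h)⟩
  · exact ⟨fun h => hb (bdd_half.1 h), fun h => bdd_half.2 (IsAutomatic.isBdd le_rfl (h1 h))⟩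

end Pool.Agent.Results.MP_9acee6_nt.SquareBase
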